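import Pool.Agent.H2.WCount

/-!
# Twists of a non-isotrivial elliptic curve over `k(X)`, `k` finite of characteristic two

Let `K = k(X)` with `k` a finite field of characteristic two, and let `b` be a nonconstant element of
`K`. The elliptic curves over `K` with `j`-invariant `1 / b` are the curves
`E_a : y² + x y = x³ + a x² + b`, which are quadratic twists of each other. For every finite set `S`
of primes of `k[X]` containing the poles of `b`, let `Z` be the set of the zeros of `b` outside `S`.
Among the twists which are ramified (sufficiently deeply) exactly at infinity and at the places in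
`S`, a proportion of more than `0.288 / 2 ^ |Z|` have a finite group of rational points and, up to a
Frobenius isogeny, all their `2ˢ`-Selmer groups killed by two and of order at most `2 ^ (|S| + |Z|)`.
If `S` contains all the zeros and all the poles of `b`, this is an absolute proportion of `28.8 %`.
-/

namespace Pool.Agent.Results.MP_950c68_ag.AbsoluteProportion

open Polynomial IsDedekindDomain Pool.Agent.H2

theorem result {k : Type} [Field k] [Finite k] [CharP k 2] (b : RatFunc k)
    (hb : ∀ c : k, b ≠ RatFunc.C c) (S Z : Finset (HeightOneSpectrum k[X]))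
    (hS : ∀ p, p ∉ S → finAbv p b ≤ 1) (hZ : ∀ p, p ∈ Z ↔ p ∉ S ∧ finAbv p b < 1) :
    ∃ (β : RatFunc k) (r : ℕ), b = β ^ 2 ^ r ∧
      ∃ M : ℕ, ∀ (m : ℕ) (n : HeightOneSpectrum k[X] → ℕ),
      M ≤ m → Odd m → (∀ p ∈ S, M ≤ n p ∧ Odd (n p)) →
      (asClass '' twists S m n).Finite ∧ (asClass '' twists S m n).Nonempty ∧
      (∏ i ∈ Finset.range S.card, (2 ^ S.card - 2 ^ i)) * (asClass '' twists S m n).ncard ≤
        2 ^ (S.card ^ 2 + Z.card) * (asClass '' {a ∈ twists S m n |
          Finite (Pts (gcurve a b) (RatFunc k)) ∧ SmallSelmer a β (S.card + Z.card)}).ncard ∧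
      288 * (asClass '' twists S m n).ncard ≤
        1000 * 2 ^ Z.card * (asClass '' {a ∈ twists S m n |
          Finite (Pts (gcurve a b) (RatFunc k)) ∧ SmallSelmer a β (S.card + Z.card)}).ncard :=
  class_all4 b hb S Z hS hZ

end Pool.Agent.Results.MP_950c68_ag.AbsoluteProportion
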