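import Pool.Agent.H2.VUni

/-!
# All quadratic twists of the elliptic curves over `k(X)`, `k` finite of characteristic two

Let `K = k(X)` with `k` a finite field of characteristic two. The elliptic curves over `K` with
`j`-invariant `1 / b` are the curves `E_a : y² + x y = x³ + a x² + b`, which are quadratic twists of
each other, and `E_a` only depends on the class of `a` modulo the functions `z² + z`. Let `S` be a finite
set of primes of `k[X]`. We consider all the classes of functions `a` with poles of given odd orders at
infinity and at the places in `S`, with no condition at the other places, ordered by the degree of the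
conductor. For more than `28.8 %` of them, simultaneously for all the nonconstant functions `b` with
poles of smaller orders at infinity and in `S` and no zero or pole elsewhere, the group `E_a(K)` is finite
and, up to a Frobenius isogeny, all the `2ˢ`-Selmer groups are killed by two.
-/

namespace Pool.Agent.Results.MP_950c68_ag.AllTwists

open Polynomial IsDedekindDomain Pool.Agent.H2

theorem result {k : Type} [Field k] [Finite k] [CharP k 2]
    (S : Finset (HeightOneSpectrum k[X])) (m : ℕ) (n : HeightOneSpectrum k[X] → ℕ) (hm : Odd m)
    (hn : ∀ p ∈ S, Odd (n p)) :
    ∃ N₀ : ℕ, ∀ N, N₀ ≤ N →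
      (asClass '' {a | ∃ e, OfType S m n e a ∧ wt e = N}).Finite ∧
      (asClass '' {a | ∃ e, OfType S m n e a ∧ wt e = N}).Nonempty ∧
      288 * (asClass '' {a | ∃ e, OfType S m n e a ∧ wt e = N}).ncard ≤
        1000 * (asClass '' {a | ∃ e, OfType S m n e a ∧ wt e = N ∧
          ∀ b, (∀ c : k, b ≠ RatFunc.C c) → (Less S m n b ∨ Adm a b) →
            GoodCurve a b (S.card + e.support.card)}).ncard :=
  all_twists_uni S m n hm hn

end Pool.Agent.Results.MP_950c68_ag.AllTwists
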