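import Pool.Agent.H18.Glue.Galois

/-!
# The Tate conjecture over composites of constant extensions
-/

set_option autoImplicit false

open CategoryTheory AlgebraicGeometry

universe u v

namespace Pool.Agent.Results.MP_950c68_ag.CompositeExtensions

open Pool.Agent.H914 Pool.Agent.H914.VarClass Pool.Agent.H914.VarClass.Obj
  Pool.Agent.H914.WeilCohomology Pool.Agent.H281R3.HT Pool.Agent.W536.RR Pool.Agent.H18.Glue

/-- Let `C` and `D` be classes of varieties over a finite field `F`, closed under products, whose
members satisfy the Tate conjecture over `F` in all codimensions, with semisimplicity. If the Tate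
conjecture holds over each extension of `F` whose degree is a prime power dividing `s`, for all
products of a member of `C` and a member of `D`, then it holds over the extension of degree `s` for
all these products. -/
theorem result {k : Type u} [Field k] {𝒱 : VarClass k} {ops : CycleOps 𝒱}
    (W : WeilCohomology.{u, v} ops) [IsAlgClosed W.K] {q : ℕ} (hq : q ≠ 0) (M : Models W q)
    (C D : Cls 𝒱) (hC : IsClass M C) (hD : IsClass M D) (TC : TateClass W q C)
    (TD : TateClass W q D) (s : ℕ) (hs : 0 < s)
    (h : ∀ l n : ℕ, l.Prime → l ^ n ∣ s → TateProducts W q C D (l ^ n)) :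
    TateProducts W q C D s := by
  induction s using Nat.recOnPosPrimePosCoprime with
  | prime_pow l n hl hn => exact h l n hl dvd_rfl
  | zero => exact absurd hs (lt_irrefl 0)
  | one =>
    have := h 2 0 Nat.prime_two (by simp)
    rwa [pow_zero] at this
  | coprime a b ha hb hab iha ihb =>
    have h1 := iha (by omega) (fun l n hl hd => h l n hl (hd.mul_right b))
    have h2 := ihb (by omega) (fun l n hl hd => h l n hl (hd.mul_left a))
    have h3 := tate_lcm hq hC hD TC TD (show 0 < a by omega) (show 0 < b by omega) h1 h2
    rwa [Nat.Coprime.lcm_eq_mul hab] at h3

end Pool.Agent.Results.MP_950c68_ag.CompositeExtensions
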