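import Pool.Agent.H18.Glue.Galois

/-!
# The Tate conjecture for the products of two classes of varieties
-/

set_option autoImplicit false

open CategoryTheory AlgebraicGeometry

universe u v

namespace Pool.Agent.Results.MP_950c68_ag.GroupOfEigenvalues

open Pool.Agent.H914 Pool.Agent.H914.VarClass Pool.Agent.H914.VarClass.Obj
  Pool.Agent.H914.WeilCohomology Pool.Agent.H281R3.HT Pool.Agent.W536.RR Pool.Agent.H18.Glue

/-- Let `C` and `D` be classes of varieties over a finite field `F` with `q` elements, closed under
products, whose members satisfy the Tate conjecture over `F` in all codimensions, with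
semisimplicity. Then the realised pairs of frequencies form a submonoid `S` of the group of all
pairs, and:

* for all `X` in `C` and `Y` in `D`, the span of the classes of all cycles on `X × Y` over an
  algebraic closure is the sum of the `H(X)_l ⊗ H(Y)_m` with `(l, m)` in `S`; so a single cycle with
  a non-zero component of the frequencies `(l, m)` on a single product makes all classes with
  these frequencies on all products algebraic;
* the Tate conjecture over the extension of degree `s` holds for all the products if and only if
  `S` contains the group of all the pairs of frequencies of Tate classes over this extension;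
* if `p` and `p⁻¹` are in `S`, then all the conjugates of `p` are in `S`; so if the conjugates of the
  elements of a set `B` generate the group of the pairs of frequencies of Tate classes over the
  extension of degree `s` (modulo the Tate twists), then the Tate conjecture over this
  extension holds for all the products if and only if `p` and `p⁻¹` are realised
  for all `p` in `B`. -/
theorem result {k : Type u} [Field k] {𝒱 : VarClass k} {ops : CycleOps 𝒱}
    (W : WeilCohomology.{u, v} ops) [IsAlgClosed W.K] {q : ℕ} (hq : q ≠ 0) (M : Models W q)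
    (C D : Cls 𝒱) (hC : IsClass M C) (hD : IsClass M D) (TC : TateClass W q C)
    (TD : TateClass W q D) :
    ∃ S : Submonoid (Pair W.K),
      (∀ p, p ∈ S ↔ Realised W hq C D p) ∧
      CyclesAre W C D S ∧
      (∀ s : ℕ, TateProducts W q C D s ↔ HasAll S (OnProducts W hq C D s)) ∧
      (HasWeilPolys W C → HasWeilPolys W D → GaloisClosed S ∧
        ∀ (s : ℕ) (B : Set (Pair W.K)), Generates W hq C D s B →
          (TateProducts W q C D s ↔ HasBoth S B)) := by
  have hon : ∀ s, OnProducts W hq C D s = OnProducts' W hq C D s := fun s =>
    funext fun p => propext onProducts_iff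
  refine ⟨realisedMonoid hq hC hD TC TD, fun p => realised_iff.symm, ?_, fun s => ?_, ?_⟩
  · intro X f Y g hX hY
    rw [pieces_eq]
    exact algSpan_eq_pieces hq hC hD TC TD hX hY
  · rw [hon]
    exact tate_iff hq hC hD TC TD
  intro PC PD
  refine ⟨fun p hp hp' σ => realised_conj hq hC hD TC TD PC PD hp hp' σ, ?_⟩
  rintro s B ⟨hB, hgen⟩
  rw [hon] at hB hgen
  constructor
  · intro h p hp
    obtain ⟨h1, h2, h3⟩ := hB p hp
    refine ⟨(tate_iff hq hC hD TC TD).1 h p ⟨h1, h2, h3⟩, ?_⟩
    refine (tate_iff hq hC hD TC TD).1 h p⁻¹ ⟨?_, ?_, Subgroup.inv_mem (tatePairs W hq s) h3⟩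
    · exact Subgroup.inv_mem _ ((mem_freqGroup hq hC (l := p.1)).2 h1)
    · exact Subgroup.inv_mem _ ((mem_freqGroup hq hD (l := p.2)).2 h2)
  · intro h
    refine (tate_iff hq hC hD TC TD).2 ?_
    intro p h1
    have h4 := hgen p h1
    have h5 : p ∈ realisedMonoid hq hC hD TC TD ∧ p⁻¹ ∈ realisedMonoid hq hC hD TC TD := by
      refine Subgroup.closure_induction (p := fun p _ => p ∈ realisedMonoid hq hC hD TC TD ∧
        p⁻¹ ∈ realisedMonoid hq hC hD TC TD) ?_ ?_ ?_ ?_ h4
      · rintro p (⟨σ, b, hb, rfl⟩ | ⟨h5, h6⟩)
        · obtain ⟨h7, h8⟩ := h b hb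
          refine ⟨realised_conj hq hC hD TC TD PC PD h7 h8 σ, ?_⟩
          have := realised_conj hq hC hD TC TD PC PD h8 (by rw [inv_inv]; exact h7) σ
          rwa [conj₂_inv] at this
        · rw [EqMod, div_one] at h5 h6
          exact ⟨tw_realised hq hC hD h5 h6,
            tw_realised hq hC hD (Subgroup.inv_mem _ h5) (Subgroup.inv_mem _ h6)⟩
      · rw [inv_one]
        exact ⟨Submonoid.one_mem _, Submonoid.one_mem _⟩
      · rintro a b - - ⟨ha, ha'⟩ ⟨hb, hb'⟩
        rw [mul_inv]
        exact ⟨Submonoid.mul_mem _ ha hb, Submonoid.mul_mem _ ha' hb'⟩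
      · rintro a - ⟨ha, ha'⟩
        rw [inv_inv]
        exact ⟨ha', ha⟩
    exact h5.1

end Pool.Agent.Results.MP_950c68_ag.GroupOfEigenvalues
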